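import Pool.Agent.H60.ALT.Row

/-!
# The digits of a coordinate alone are full over every closed code

`lbok_prod`: a closed label together with a closed code of a shorter window is a label of the
shorter window. `alt_code`: the lower bound of the number, for all labels of a longer window and all
closed codes; the label and the code are in the condition. `ful_n'`, `ful_n`: the same from the
linear numbers near a window. `ful_y`: for the digits of a later block, the condition is any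
function of the label, of the code, of the first digits, of the coordinates in `I₀`, of time and
side information. `ful_few`: the condition is such a function up to few bits.
-/

set_option autoImplicit false

namespace Pool.ALT

open Finset Real MvPolynomial
open Pool.Agent.H49.Ent Pool.Agent.H32.Dense Pool.STK Pool.KA Pool.KSAT Pool.K2S Pool.PB Pool.S6C
  Pool.GEN Pool.RCD Pool.LA91 Pool.OWN68
open Pool.UNJ (ceI)

variable {m : ℕ} {I I₀ : Finset (Fin m)} {κ : Fin m} {K : ℕ} {e₀ ρ₀ π₀ : ℝ}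

/-- **A label together with a closed code of a shorter window.** -/
theorem lbok_prod {J : ℕ} {F : Fam m J} {k : Fin m} {K e r w w' ρ P : ℕ} {A : F.Ω → Prop}
    {V C : Type} {z : PtT F → V} {z' : LnT F → V} {G : V → MvPolynomial (Option (Fin m)) ℝ}
    (h : LbOK F I k K e r w ρ P A z z' G) (hw : w ≤ w') (hw' : w' ≤ J) {zc : PtT F → C}
    {zc' : LnT F → C} (hc : ∀ ω, A ω → zc (ptr F r ω) = zc' (slam F w' ω)) :
    LbOK F I k K e r w' ρ P A (fun p => (z p, zc p)) (fun s => (wz z' w w' s, zc' s))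
      (fun v : V × C => G v.1) := by
  have h1 := lbok_win h hw hw'
  exact ⟨fun v => h1.deg v.1, fun v => h1.dep v.1,
    fun ω hω => Prod.ext (h1.cls ω hω) (hc ω hω), h1.pos, h1.vel, h1.lip⟩

theorem xa_prod {J : ℕ} {F : Fam m J} {V C : Type} (z' : LnT F → V) (zc' : LnT F → C) {W W₁ : ℕ}
    (h : W ≤ W₁) (h1 : W₁ ≤ J) (G : V → MvPolynomial (Option (Fin m)) ℝ) (s : ℝ) :
    xa F κ (fun s => (wz z' W W₁ s, zc' s)) W₁ (fun v : V × C => G v.1) s = xa F κ z' W G s := by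
  funext ω
  unfold xa hgt
  simp only [wz_slam z' h h1]

/-- **The digits are full over every closed code**: for all labels of a longer window, given the
label, every closed code, the first digits, the coordinates in `I₀`, time and side information. -/
theorem alt_code {S : PCl m} (hpos : ∀ (τ : ℝ) (J : ℕ) (F : Fam m J) (A : F.Ω → Prop),
      S.St τ J F A → 0 < Pe F.p A) {w w₁ s₀ s₁ θ d : ℝ} (hw : w ≤ w₁) (hw1 : w₁ ≤ 1)
    (N : CNum (altQ I I₀ κ K e₀ ρ₀ π₀ w₁ s₀ s₁) S θ) (hd : d < θ) :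
    Bas S (fun J F A => ∀ (V : Type) (z : PtT F → V) (z' : LnT F → V)
      (G : V → MvPolynomial (Option (Fin m)) ℝ), LbOK F I κ K ⌊e₀ * J⌋₊ J ⌊w * J⌋₊ ⌊ρ₀ * J⌋₊
        ⌊π₀ * J⌋₊ A z z' G →
      ∀ (C : Type) (zc : PtT F → C) (zc' : LnT F → C),
      (∀ ω, A ω → zc (ptr F J ω) = zc' (slam F ⌊w₁ * J⌋₊ ω)) →
      d * J ≤ CH (Pool.Agent.H49.Ent.cond F.p A True) (xa F κ z' ⌊w * J⌋₊ G s₁)
        (fun ω => (xa F κ z' ⌊w * J⌋₊ G s₀ ω, ((z' (slam F ⌊w * J⌋₊ ω),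
          zc' (slam F ⌊w₁ * J⌋₊ ω)), (ceI I₀ (fun _ => J) (F.x ω), F.W ω))))) := by
  refine Bas.mono 0 (alt_low hpos N (θ - d) (by linarith)) ?_
  rintro J - F A H V z z' G hG C zc zc' hc
  obtain ⟨f1, f2⟩ := floorw hw hw1 J
  have h1 := H _ _ _ _ (lbok_prod hG f1 f2 hc)
  rw [xa_prod z' zc' f1 f2] at h1
  have e1 : (ya F I₀ κ (fun s => (wz z' ⌊w * J⌋₊ ⌊w₁ * J⌋₊ s, zc' s)) ⌊w₁ * J⌋₊
      (fun v : V × C => G v.1) s₀) = fun ω => (xa F κ z' ⌊w * J⌋₊ G s₀ ω,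
        ((z' (slam F ⌊w * J⌋₊ ω), zc' (slam F ⌊w₁ * J⌋₊ ω)),
          (ceI I₀ (fun _ => J) (F.x ω), F.W ω))) := by
    funext ω
    unfold ya
    rw [xa_prod z' zc' f1 f2]
    simp only [wz_slam z' f1 f2]
  rw [e1] at h1
  have e2 : θ - (θ - d) = d := by ring
  rwa [e2] at h1

/-- **The digits are full over every closed code**, near a window with linear numbers; the label is
in the condition. -/
theorem ful_n' {S : PCl m} (hpos : ∀ (τ : ℝ) (J : ℕ) (F : Fam m J) (A : F.Ω → Prop),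
      S.St τ J F A → 0 < Pe F.p A) {s : ℝ → ℝ} {x φ e : ℝ} {k : ℕ}
    (h : AltAt S I I₀ κ K e₀ ρ₀ π₀ s x φ e k) {v : ℝ} {w₁ o : ℚ} (h1 : x - (1 / 2) ^ k ≤ w₁)
    (h2 : w₁ ≤ o) (h3 : (o : ℝ) ≤ x + (1 / 2) ^ k) (hv : v ≤ w₁) (hw1 : (w₁ : ℝ) ≤ 1) {d : ℝ}
    (hd : d < φ * (o - w₁) - e * (1 / 2) ^ k) :
    Bas S (fun J F A => ∀ (V : Type) (z : PtT F → V) (z' : LnT F → V)
      (G : V → MvPolynomial (Option (Fin m)) ℝ), LbOK F I κ K ⌊e₀ * J⌋₊ J ⌊v * J⌋₊ ⌊ρ₀ * J⌋₊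
        ⌊π₀ * J⌋₊ A z z' G →
      ∀ (C : Type) (zc : PtT F → C) (zc' : LnT F → C),
      (∀ ω, A ω → zc (ptr F J ω) = zc' (slam F ⌊(w₁ : ℝ) * J⌋₊ ω)) →
      d * J ≤ CH (Pool.Agent.H49.Ent.cond F.p A True) (xa F κ z' ⌊v * J⌋₊ G (s o))
        (fun ω => (xa F κ z' ⌊v * J⌋₊ G (s w₁) ω, ((z' (slam F ⌊v * J⌋₊ ω),
          zc' (slam F ⌊(w₁ : ℝ) * J⌋₊ ω)), (ceI I₀ (fun _ => J) (F.x ω), F.W ω))))) := by
  obtain ⟨θ, a1, a2⟩ := h w₁ o h1 h2 h3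
  have a3 := (abs_le.1 a2).1
  exact alt_code hpos hv hw1 a1 (by linarith)

/-- **The digits are full over every closed code**, near a window with linear numbers. -/
theorem ful_n {S : PCl m} (hpos : ∀ (τ : ℝ) (J : ℕ) (F : Fam m J) (A : F.Ω → Prop),
      S.St τ J F A → 0 < Pe F.p A) {s : ℝ → ℝ} {x φ e : ℝ} {k : ℕ}
    (h : AltAt S I I₀ κ K e₀ ρ₀ π₀ s x φ e k) {v : ℝ} {w₁ o : ℚ} (h1 : x - (1 / 2) ^ k ≤ w₁)
    (h2 : w₁ ≤ o) (h3 : (o : ℝ) ≤ x + (1 / 2) ^ k) (hv : v ≤ w₁) (hw1 : (w₁ : ℝ) ≤ 1) {d : ℝ}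
    (hd : d < φ * (o - w₁) - e * (1 / 2) ^ k) :
    Bas S (fun J F A => ∀ (V : Type) (z : PtT F → V) (z' : LnT F → V)
      (G : V → MvPolynomial (Option (Fin m)) ℝ), LbOK F I κ K ⌊e₀ * J⌋₊ J ⌊v * J⌋₊ ⌊ρ₀ * J⌋₊
        ⌊π₀ * J⌋₊ A z z' G →
      ∀ (C : Type) (zc : PtT F → C) (zc' : LnT F → C),
      (∀ ω, A ω → zc (ptr F J ω) = zc' (slam F ⌊(w₁ : ℝ) * J⌋₊ ω)) →
      d * J ≤ CH (Pool.Agent.H49.Ent.cond F.p A True) (xa F κ z' ⌊v * J⌋₊ G (s o))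
        (fun ω => (xa F κ z' ⌊v * J⌋₊ G (s w₁) ω, (zc' (slam F ⌊(w₁ : ℝ) * J⌋₊ ω),
          (ceI I₀ (fun _ => J) (F.x ω), F.W ω))))) := by
  refine Bas.mono 0 ((ful_n' hpos h h1 h2 h3 hv hw1 hd).and (pos_bas hpos)) ?_
  rintro J - F A ⟨H, hA⟩ V z z' G hG C zc zc' hc
  refine (H V z z' G hG C zc zc' hc).trans
    (CH_mono_cond (isLaw_cond F.isLaw hA).nonneg fun ω ω' _ _ e => ?_)
  simp only [Prod.mk.injEq] at e ⊢
  exact ⟨e.1, e.2.1.2, e.2.2⟩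

/-- A code which is closed at a window is closed at the shorter windows. -/
theorem code_win {J : ℕ} {F : Fam m J} {A : F.Ω → Prop} {C : Type} {r U W : ℕ}
    {zc : PtT F → C} {zc' : LnT F → C} (hU : U ≤ W) (hW : W ≤ J)
    (hc : ∀ ω, A ω → zc (ptr F r ω) = zc' (slam F U ω)) :
    ∀ ω, A ω → zc (ptr F r ω) = wz zc' U W (slam F W ω) := fun ω hω => by
  rw [wz_slam zc' hU hW]
  exact hc ω hω

/-- **The digits from the level `s a` to the level `s o` are full over every code which is closed at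
a window `u ≤ a`**, for all labels of a window `v ≤ a`; the condition `Y` is any function of the
label, of the code, of the first digits, of the coordinates in `I₀`, of time and side
information. -/
theorem ful_y {S : PCl m} (hpos : ∀ (τ : ℝ) (J : ℕ) (F : Fam m J) (A : F.Ω → Prop),
      S.St τ J F A → 0 < Pe F.p A) {s : ℝ → ℝ} {x φ e : ℝ} {k : ℕ}
    (h : AltAt S I I₀ κ K e₀ ρ₀ π₀ s x φ e k) {v u : ℝ} {a o : ℚ} (h1 : x - (1 / 2) ^ k ≤ a)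
    (h2 : a ≤ o) (h3 : (o : ℝ) ≤ x + (1 / 2) ^ k) (hv : v ≤ a) (hu : u ≤ a) (ha : (a : ℝ) ≤ 1)
    {d : ℝ} (hd : d < φ * (o - a) - e * (1 / 2) ^ k) :
    Bas S (fun J F A => ∀ (V : Type) (z : PtT F → V) (z' : LnT F → V)
      (G : V → MvPolynomial (Option (Fin m)) ℝ), LbOK F I κ K ⌊e₀ * J⌋₊ J ⌊v * J⌋₊ ⌊ρ₀ * J⌋₊
        ⌊π₀ * J⌋₊ A z z' G →
      ∀ (C : Type) (zc : PtT F → C) (zc' : LnT F → C),
      (∀ ω, A ω → zc (ptr F J ω) = zc' (slam F ⌊u * J⌋₊ ω)) →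
      ∀ (D : Type) (Y : F.Ω → D), (∀ ω ω', A ω → A ω' →
        xa F κ z' ⌊v * J⌋₊ G (s a) ω = xa F κ z' ⌊v * J⌋₊ G (s a) ω' →
        z' (slam F ⌊v * J⌋₊ ω) = z' (slam F ⌊v * J⌋₊ ω') →
        zc' (slam F ⌊u * J⌋₊ ω) = zc' (slam F ⌊u * J⌋₊ ω') →
        ceI I₀ (fun _ => J) (F.x ω) = ceI I₀ (fun _ => J) (F.x ω') → F.W ω = F.W ω' →
        Y ω = Y ω') →
      d * J ≤ CH (Pool.Agent.H49.Ent.cond F.p A True) (xa F κ z' ⌊v * J⌋₊ G (s o)) Y) := by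
  refine Bas.mono 0 ((ful_n' hpos h h1 h2 h3 hv ha hd).and (pos_bas hpos)) ?_
  rintro J - F A ⟨H, hA⟩ V z z' G hG C zc zc' hc D Y hY
  obtain ⟨f1, f2⟩ := floorw hu ha J
  refine (H V z z' G hG C zc _ (code_win f1 f2 hc)).trans
    (CH_mono_cond (isLaw_cond F.isLaw hA).nonneg fun ω ω' hω hω' e => ?_)
  simp only [Prod.mk.injEq] at e
  have b1 := cond_pos hω
  have b2 := cond_pos hω'
  refine hY ω ω' b1 b2 e.1 e.2.1.1 ?_ e.2.2.1 e.2.2.2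
  have e3 := e.2.1.2
  change wz zc' ⌊u * J⌋₊ ⌊(a : ℝ) * J⌋₊ (slam F ⌊(a : ℝ) * J⌋₊ ω) =
    wz zc' ⌊u * J⌋₊ ⌊(a : ℝ) * J⌋₊ (slam F ⌊(a : ℝ) * J⌋₊ ω') at e3
  rwa [wz_slam zc' f1 f2, wz_slam zc' f1 f2] at e3

/-- **The same, up to few bits**: if `Y` has the entropy at most `b` given the label, the code, the
first digits, the coordinates in `I₀`, time and side information. -/
theorem ful_few {S : PCl m} (hpos : ∀ (τ : ℝ) (J : ℕ) (F : Fam m J) (A : F.Ω → Prop),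
      S.St τ J F A → 0 < Pe F.p A) {s : ℝ → ℝ} {x φ e : ℝ} {k : ℕ}
    (h : AltAt S I I₀ κ K e₀ ρ₀ π₀ s x φ e k) {v u : ℝ} {a o : ℚ} (h1 : x - (1 / 2) ^ k ≤ a)
    (h2 : a ≤ o) (h3 : (o : ℝ) ≤ x + (1 / 2) ^ k) (hv : v ≤ a) (hu : u ≤ a) (ha : (a : ℝ) ≤ 1)
    {d : ℝ} (hd : d < φ * (o - a) - e * (1 / 2) ^ k) :
    Bas S (fun J F A => ∀ (V : Type) (z : PtT F → V) (z' : LnT F → V)
      (G : V → MvPolynomial (Option (Fin m)) ℝ), LbOK F I κ K ⌊e₀ * J⌋₊ J ⌊v * J⌋₊ ⌊ρ₀ * J⌋₊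
        ⌊π₀ * J⌋₊ A z z' G →
      ∀ (C : Type) (zc : PtT F → C) (zc' : LnT F → C),
      (∀ ω, A ω → zc (ptr F J ω) = zc' (slam F ⌊u * J⌋₊ ω)) →
      ∀ (D : Type) (Y : F.Ω → D) (b : ℝ), CH (Pool.Agent.H49.Ent.cond F.p A True) Y
        (fun ω => (xa F κ z' ⌊v * J⌋₊ G (s a) ω, ((z' (slam F ⌊v * J⌋₊ ω),
          zc' (slam F ⌊u * J⌋₊ ω)), (ceI I₀ (fun _ => J) (F.x ω), F.W ω)))) ≤ b →
      d * J - b ≤ CH (Pool.Agent.H49.Ent.cond F.p A True) (xa F κ z' ⌊v * J⌋₊ G (s o)) Y) := by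
  refine Bas.mono 0 ((ful_y hpos h h1 h2 h3 hv hu ha hd).and (pos_bas hpos)) ?_
  rintro J - F A ⟨H, hA⟩ V z z' G hG C zc zc' hc D Y b hb
  obtain ⟨R, hR⟩ : ∃ R : F.Ω → ℤ × ((V × C) × ((Fin m → ℤ) × (ℕ × F.ζ))), R = fun ω =>
    (xa F κ z' ⌊v * J⌋₊ G (s a) ω, ((z' (slam F ⌊v * J⌋₊ ω),
      zc' (slam F ⌊u * J⌋₊ ω)), (ceI I₀ (fun _ => J) (F.x ω), F.W ω))) := ⟨_, rfl⟩
  have h0 := (isLaw_cond F.isLaw hA).nonneg
  have h4 := H V z z' G hG C zc zc' hc _ R fun ω ω' _ _ e1 e2 e3 e4 e5 => by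
    rw [hR]
    simp only [e1, e2, e3, e4, e5]
  rw [← hR] at hb
  have h5 := CH_le_add h0 (xa F κ z' ⌊v * J⌋₊ G (s o)) Y R
  have h6 : CH (Pool.Agent.H49.Ent.cond F.p A True) (xa F κ z' ⌊v * J⌋₊ G (s o))
      (fun ω => (Y ω, R ω)) ≤ CH (Pool.Agent.H49.Ent.cond F.p A True)
      (xa F κ z' ⌊v * J⌋₊ G (s o)) Y :=
    CH_mono_cond h0 fun ω ω' _ _ e => (Prod.ext_iff.mp e).1
  linarith

end Pool.ALT
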