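import Pool.Agent.H37.RW2.U
import Pool.Agent.H63.RW2.FulN

/-!
# The digits over every closed code, near a window with linear numbers

`fulY_of`: `FulY` from `AltAt`.
-/

set_option autoImplicit false

namespace Pool.RW37

open Finset Real MvPolynomial
open Pool.Agent.H49.Ent Pool.Agent.H32.Dense Pool.STK Pool.KA Pool.KSAT Pool.K2S Pool.PB Pool.GEN
open Pool.S6C Pool.RCD Pool.LA91 Pool.OWN68 Pool.CHT Pool.AJX
open Pool.UNJ (ceI)
open Pool.ALT (AltAt ful_few)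

variable {m : ℕ}

/-- **`FulY` from `AltAt`**: labels of any window `v ≤ a`, codes closed at any window `u ≤ a`. -/
theorem fulY_of {S : PCl m}
    (hpos : ∀ (τ : ℝ) (J : ℕ) (F : Fam m J) (A : F.Ω → Prop), S.St τ J F A → 0 < Pe F.p A)
    {I I₀ : Finset (Fin m)} {κ : Fin m} {K : ℕ} {e₀ ρ₀ π₀ : ℝ} {s : ℝ → ℝ} {x φ e : ℝ} {k : ℕ}
    (h : AltAt S I I₀ κ K e₀ ρ₀ π₀ s x φ e k) {v u : ℝ} {a o : ℚ} (h1 : x - (1 / 2) ^ k ≤ a)
    (h2 : a ≤ o) (h3 : (o : ℝ) ≤ x + (1 / 2) ^ k) (hv : v ≤ a) (hu : u ≤ a) (ha : (a : ℝ) ≤ 1)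
    {d : ℝ} (hd : d < φ * (o - a) - e * (1 / 2) ^ k) :
    FulY S I I₀ κ K e₀ ρ₀ π₀ v u (s a) (s o) d := by
  refine Bas.mono 0 (ful_few hpos h h1 h2 h3 hv hu ha hd) ?_
  rintro J - F A H V z z' G hG C zc zc' hc D Y b hb
  exact H V z z' G hG C zc zc' hc D Y b hb

end Pool.RW37
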